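import Mathlib
import Pool.Agent.H184Z.LV.Defs
import Pool.Agent.H184Z.LV.Main

set_option autoImplicit false

/-!
# A Brody hyperbolic quasi-projective surface with infinitely many pointed maps from a curve

Let `s = x y (x - y)` and `q = x^2 - x y + y^2 - 1`.  The surface `X` is the open subscheme of the
affine plane obtained by removing the two cubics `s = 1`, `s = 2` and the six points `s = q = 0`.

* `X` is Brody hyperbolic.  Along an entire curve `s` omits `1` and `2`, so it is constant by the
  little theorem of Picard.  If the constant is not zero, `x / y` omits `0` and `1`, so it is
  constant, and then `y^3` is constant.  If it is zero, the curve lies in one of the three lines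
  `x = 0`, `y = 0`, `x = y`, from each of which two points were removed.
* Let `C` be the affine line minus the roots of `(t^3 - 1) (t^3 - 2)`.  For each of the infinitely
  many pairs `(a, b)` with `a b (a - b) = 1`, the map `t ↦ (a t, b t)` sends `C` to `X` (there
  `s = t^3`) and `0` to the origin.

So conditions (1) and (3) have different truth values for `X`.
-/

open AlgebraicGeometry CategoryTheory

namespace Pool.Agent.Results.MP_dc0411_ag.ACounterexample

open Pool.Agent.H184Z.LV

theorem result : ∃ X : Over SpecC, IsQuasiProjectiveVariety X ∧ IsIntegral X.left ∧
    SmoothOfRelativeDimension 2 X.hom ∧ IsBrodyHyperbolic X ∧ ¬ HasFinitelyManyPointedMaps X :=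
  Pool.Agent.H184Z.LV.main

end Pool.Agent.Results.MP_dc0411_ag.ACounterexample
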